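import Pool.Agent.helper4.NF.SpecA

/-!
# Project nf: (MP_4467b5_nt), module TRI: the triple identity
-/

set_option autoImplicit false

open Complex MeasureTheory

namespace Pool.Agent.NF

open Pool.Agent.helper84.DM Pool.Agent.helper78.ED Pool.Agent.DH Pool.Agent.ZD

theorem TRI_ex_cont : Continuous ex := by
  unfold ex
  fun_prop

theorem TRI_ex_add (x y : ℝ) : ex (x + y) = ex x * ex y := by
  unfold ex
  rw [← Complex.exp_add]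
  congr 1
  push_cast
  ring

theorem TRI_ex_conj (x : ℝ) : (starRingEnd ℂ) (ex x) = ex (-x) := by
  unfold ex
  rw [← Complex.exp_conj]
  congr 1
  rw [map_mul, Complex.conj_ofReal, Complex.conj_I]
  push_cast
  ring

/-- the integrand on `ℝ × ℝ × ℝ` -/
noncomputable def TRI_F (G H Z : ℝ → ℂ) (t₁ t₂ : ℝ) (q : (ℝ × ℝ) × ℝ) : ℂ :=
  (ex (t₁ * q.1.1 - t₂ * q.1.2) * Z (q.1.1 - q.1.2)) *
    (G (q.2 + q.1.1) * (starRingEnd ℂ) (G (q.2 + q.1.2)) * H q.2)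

/-- the integrand on `ℝ × ℝ` -/
noncomputable def TRI_P (G H Z : ℝ → ℂ) (t₁ t₂ : ℝ) (p : ℝ × ℝ) : ℂ :=
  (ex (t₁ * p.1 - t₂ * p.2) * Z (p.1 - p.2)) *
    ∫ z : ℝ, G (z + p.1) * (starRingEnd ℂ) (G (z + p.2)) * H z

section

variable {G H Z : ℝ → ℂ} (hG : Continuous G) (hH : Continuous H) (hZ : Continuous Z)
  (hG0 : ∀ x, 5 < |x| → G x = 0) (hH0 : ∀ x, 5 < |x| → H x = 0)

include hG hH hZ in
theorem TRI_F_cont (t₁ t₂ : ℝ) : Continuous (TRI_F G H Z t₁ t₂) := by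
  have h1 := TRI_ex_cont
  have h2 : Continuous (fun z : ℂ => (starRingEnd ℂ) z) := Complex.continuous_conj
  unfold TRI_F
  fun_prop

include hG0 hH0 in
theorem TRI_F_supp (t₁ t₂ : ℝ) (q : (ℝ × ℝ) × ℝ)
    (hq : q ∉ (Set.Icc (-10 : ℝ) 10 ×ˢ Set.Icc (-10 : ℝ) 10) ×ˢ Set.Icc (-5 : ℝ) 5) :
    TRI_F G H Z t₁ t₂ q = 0 := by
  obtain ⟨⟨a, b⟩, z⟩ := q
  unfold TRI_F
  by_contra hcon
  have h1 : H z ≠ 0 := by
    intro h
    apply hcon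
    simp only
    rw [h, mul_zero, mul_zero]
  have h2 : G (z + a) ≠ 0 := by
    intro h
    apply hcon
    simp only
    rw [h, zero_mul, zero_mul, mul_zero]
  have h3 : G (z + b) ≠ 0 := by
    intro h
    apply hcon
    simp only
    rw [h, map_zero, mul_zero, zero_mul, mul_zero]
  have h4 : |z| ≤ 5 := by
    by_contra h
    exact h1 (hH0 z (not_le.1 h))
  have h5 : |z + a| ≤ 5 := by
    by_contra h
    exact h2 (hG0 _ (not_le.1 h))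
  have h6 : |z + b| ≤ 5 := by
    by_contra h
    exact h3 (hG0 _ (not_le.1 h))
  rw [abs_le] at h4 h5 h6
  exact hq ⟨⟨⟨by linarith [h4.2, h5.1], by linarith [h4.1, h5.2]⟩,
    ⟨by linarith [h4.2, h6.1], by linarith [h4.1, h6.2]⟩⟩, h4⟩

include hG hH hZ hG0 hH0 in
theorem TRI_F_int (t₁ t₂ : ℝ) :
    Integrable (TRI_F G H Z t₁ t₂) ((volume.prod volume).prod volume) := by
  refine (TRI_F_cont hG hH hZ t₁ t₂).integrable_of_hasCompactSupport ?_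
  exact HasCompactSupport.intro ((isCompact_Icc.prod isCompact_Icc).prod isCompact_Icc)
    (TRI_F_supp hG0 hH0 t₁ t₂)

include hG hH hZ hG0 hH0 in
theorem TRI_Fz_int (t₁ t₂ z : ℝ) :
    Integrable (fun p : ℝ × ℝ => TRI_F G H Z t₁ t₂ (p, z)) (volume.prod volume) := by
  refine Continuous.integrable_of_hasCompactSupport
    ((TRI_F_cont hG hH hZ t₁ t₂).comp (by fun_prop)) ?_
  exact HasCompactSupport.intro (K := Set.Icc (-10 : ℝ) 10 ×ˢ Set.Icc (-10 : ℝ) 10)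
    (isCompact_Icc.prod isCompact_Icc)
    (fun p hp => TRI_F_supp hG0 hH0 t₁ t₂ (p, z) (fun h => hp h.1))

theorem TRI_P_eq (t₁ t₂ : ℝ) (p : ℝ × ℝ) :
    ∫ z : ℝ, TRI_F G H Z t₁ t₂ (p, z) = TRI_P G H Z t₁ t₂ p := by
  unfold TRI_F TRI_P
  exact integral_const_mul (ex (t₁ * p.1 - t₂ * p.2) * Z (p.1 - p.2))
    (fun z : ℝ => G (z + p.1) * (starRingEnd ℂ) (G (z + p.2)) * H z)

include hG hH hZ hG0 hH0 in
theorem TRI_P_int (t₁ t₂ : ℝ) : Integrable (TRI_P G H Z t₁ t₂) (volume.prod volume) := by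
  refine (TRI_F_int hG hH hZ hG0 hH0 t₁ t₂).integral_prod_left.congr
    (Filter.Eventually.of_forall fun p => ?_)
  exact TRI_P_eq t₁ t₂ p

/-- the substitution for fixed `z` -/
theorem TRI_sub (t₁ t₂ z : ℝ) : ∫ a : ℝ, ∫ b : ℝ, TRI_F G H Z t₁ t₂ ((a, b), z) =
    (H z * ex (-((t₁ - t₂) * z))) * ∫ x₁ : ℝ, ∫ x₂ : ℝ,
      G x₁ * (starRingEnd ℂ) (G x₂) * Z (x₁ - x₂) * ex (t₁ * x₁ - t₂ * x₂) := by
  set J : ℝ → ℝ → ℂ := fun x₁ x₂ =>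
    G x₁ * (starRingEnd ℂ) (G x₂) * Z (x₁ - x₂) * ex (t₁ * x₁ - t₂ * x₂) with hJ
  have h1 : ∀ a b : ℝ, TRI_F G H Z t₁ t₂ ((a, b), z) =
      (H z * ex (-((t₁ - t₂) * z))) * J (z + a) (z + b) := by
    intro a b
    simp only [TRI_F, hJ]
    have h2 : ex (t₁ * a - t₂ * b) = ex (-((t₁ - t₂) * z)) * ex (t₁ * (z + a) - t₂ * (z + b)) := by
      rw [← TRI_ex_add]
      congr 1
      ring
    have h3 : z + a - (z + b) = a - b := by ring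
    rw [h2, h3]
    ring
  have h4 : ∀ a : ℝ, ∫ b : ℝ, TRI_F G H Z t₁ t₂ ((a, b), z) =
      (H z * ex (-((t₁ - t₂) * z))) * ∫ x₂ : ℝ, J (z + a) x₂ := by
    intro a
    simp_rw [h1]
    rw [integral_const_mul]
    congr 1
    exact integral_add_left_eq_self (fun x => J (z + a) x) z
  simp_rw [h4]
  rw [integral_const_mul]
  congr 1
  exact integral_add_left_eq_self (fun x => ∫ x₂ : ℝ, J x x₂) z

include hG hH hZ hG0 hH0 in
theorem TRI_val (t₁ t₂ : ℝ) : ∫ p : ℝ × ℝ, TRI_P G H Z t₁ t₂ p ∂(volume.prod volume) =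
    (∫ z : ℝ, H z * ex (-((t₁ - t₂) * z))) * ∫ x₁ : ℝ, ∫ x₂ : ℝ,
      G x₁ * (starRingEnd ℂ) (G x₂) * Z (x₁ - x₂) * ex (t₁ * x₁ - t₂ * x₂) := by
  have h1 : ∫ p : ℝ × ℝ, TRI_P G H Z t₁ t₂ p ∂(volume.prod volume) =
      ∫ p : ℝ × ℝ, (∫ z : ℝ, TRI_F G H Z t₁ t₂ (p, z)) ∂(volume.prod volume) := by
    congr 1
    funext p
    exact (TRI_P_eq t₁ t₂ p).symm
  rw [h1]
  have h2 : ∫ p : ℝ × ℝ, (∫ z : ℝ, TRI_F G H Z t₁ t₂ (p, z)) ∂(volume.prod volume) =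
      ∫ z : ℝ, (∫ p : ℝ × ℝ, TRI_F G H Z t₁ t₂ (p, z) ∂(volume.prod volume)) :=
    integral_integral_swap (f := fun p z => TRI_F G H Z t₁ t₂ (p, z))
      (TRI_F_int hG hH hZ hG0 hH0 t₁ t₂)
  rw [h2]
  have h3 : ∀ z : ℝ, ∫ p : ℝ × ℝ, TRI_F G H Z t₁ t₂ (p, z) ∂(volume.prod volume) =
      (H z * ex (-((t₁ - t₂) * z))) * ∫ x₁ : ℝ, ∫ x₂ : ℝ,
        G x₁ * (starRingEnd ℂ) (G x₂) * Z (x₁ - x₂) * ex (t₁ * x₁ - t₂ * x₂) := by
    intro z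
    rw [integral_prod _ (TRI_Fz_int hG hH hZ hG0 hH0 t₁ t₂ z)]
    exact TRI_sub t₁ t₂ z
  simp_rw [h3]
  rw [integral_mul_const]

end

theorem TRI : TRI_stmt := by
  intro G H Z hG hH hZ hG0 hH0 W f
  have e1 : ∀ a b : ℝ, xf W f a * (starRingEnd ℂ) (xf W f b) * Z (a - b) *
      ∫ z : ℝ, G (z + a) * (starRingEnd ℂ) (G (z + b)) * H z =
      ∑ t₁ ∈ W, ∑ t₂ ∈ W, (f t₁ * (starRingEnd ℂ) (f t₂)) * TRI_P G H Z t₁ t₂ (a, b) := by
    intro a b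
    have h1 : xf W f a * (starRingEnd ℂ) (xf W f b) =
        ∑ t₁ ∈ W, ∑ t₂ ∈ W, (f t₁ * (starRingEnd ℂ) (f t₂)) * ex (t₁ * a - t₂ * b) := by
      unfold xf
      rw [map_sum, Finset.sum_mul_sum]
      refine Finset.sum_congr rfl fun t₁ _ => Finset.sum_congr rfl fun t₂ _ => ?_
      rw [map_mul, TRI_ex_conj, sub_eq_add_neg, TRI_ex_add]
      ring
    rw [h1, Finset.sum_mul, Finset.sum_mul]
    refine Finset.sum_congr rfl fun t₁ _ => ?_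
    rw [Finset.sum_mul, Finset.sum_mul]
    refine Finset.sum_congr rfl fun t₂ _ => ?_
    unfold TRI_P
    ring
  simp_rw [e1]
  have hi : ∀ t₁ t₂ : ℝ, Integrable (fun p : ℝ × ℝ =>
      (f t₁ * (starRingEnd ℂ) (f t₂)) * TRI_P G H Z t₁ t₂ p) (volume.prod volume) :=
    fun t₁ t₂ => (TRI_P_int hG hH hZ hG0 hH0 t₁ t₂).const_mul _
  have hi2 : Integrable (fun p : ℝ × ℝ => ∑ t₁ ∈ W, ∑ t₂ ∈ W,
      (f t₁ * (starRingEnd ℂ) (f t₂)) * TRI_P G H Z t₁ t₂ p) (volume.prod volume) :=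
    integrable_finsetSum _ fun t₁ _ => integrable_finsetSum _ fun t₂ _ => hi t₁ t₂
  have e2 := integral_integral (f := fun a b => ∑ t₁ ∈ W, ∑ t₂ ∈ W,
      (f t₁ * (starRingEnd ℂ) (f t₂)) * TRI_P G H Z t₁ t₂ (a, b)) hi2
  rw [e2]
  rw [integral_finsetSum _ fun t₁ _ => integrable_finsetSum _ fun t₂ _ => hi t₁ t₂]
  refine Finset.sum_congr rfl fun t₁ _ => ?_
  rw [integral_finsetSum _ fun t₂ _ => hi t₁ t₂]
  refine Finset.sum_congr rfl fun t₂ _ => ?_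
  rw [integral_const_mul]
  have h5 := TRI_val hG hH hZ hG0 hH0 t₁ t₂
  rw [h5]
  ring

end Pool.Agent.NF
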